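import Pool.Agent.Helper37.GP.YM

/-! # DE: decision -/

universe u

namespace Pool.Agent.Helper66.GP

open ZFSet MeasureTheory Pool.Agent.Helper66.SC Pool.Agent.Helper22.SC Pool.Agent.Helper76.GP
open Pool.Agent.Helper27.SC (gname gname_memM val_gname u_chk)

theorem de_Fy_mem {M W A : Set ZFSet.{u}} (hW : IsZF W A) (hR : RB M ∈ W) {y : ZFSet.{u}}
    (hy : y ∈ W) : Fy M y ∈ W := by
  have h : U KZ.{u} (fun _ _ (p : ZFSet.{u} × ZFSet.{u}) => p.1.sep (fun b => ¬ InU b p.2)) := by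
    refine U.sep (R := fun _ _ (p : ZFSet.{u} × ZFSet.{u}) b => ¬ InU b p.2) U.id.fst ?_
    exact (de_u_InU U.id.snd U.id.fst.snd).not
  have h1 := h.closed hW (a := (RB M, y)) (by simp [hR, hy])
  simpa [Fy] using h1

theorem de_omega : (oz Ordinal.omega0 : ZFSet.{u}) = ZFSet.omega := by
  ext k
  rw [Ordinal.mem_toZFSet_iff, mem_omega_iff']
  constructor
  · rintro ⟨a, ha, rfl⟩
    obtain ⟨i, rfl⟩ := Ordinal.lt_omega0.1 ha
    exact ⟨i, rfl⟩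
  · rintro ⟨n, rfl⟩
    exact ⟨n, Ordinal.natCast_lt_omega0 n, rfl⟩

/-- `RB M` is small. -/
theorem de_RB_small (hB1 : ST_B1.{u}) {M : Set ZFSet.{u}} {κ : Ordinal.{u}} (hM : Ctm M)
    (hκ : Inac M κ) (hm : MuR ∈ M) : Small M κ (RB M) := by
  obtain ⟨h1, _, _, h4, _, h6, _, _, _⟩ := hB1 M κ hM.zf hM.wo hκ
  have hVM : VO.{u} ∈ M := VO_mem hM.zf
  have hV : Small M κ VO := ⟨hVM, Ordinal.omega0, hκ.gt, by
    rw [de_omega]; exact VO_cardLe hM.zf hM.wo⟩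
  have hP := h1 _ hV
  have hPP := h1 _ hP
  refine h4 _ _ hP (RB_mem hM.zf hm) (cardLe_subset hM.zf (RB_mem hM.zf hm) ?_)
  intro b hb
  rw [mem_RB] at hb
  refine mem_Pow.2 ⟨hb.1, fun s hs => ?_⟩
  exact (ZFSet.mem_sep.1 (hb.2.1.1 hs)).1

/-- the model `M[y]` and its properties -/
theorem de_My (hB1 : ST_B1.{u}) (hB3 : ST_B3.{u}) (hL3 : ST_L3.{u}) (hL6 : ST_L6.{u})
    {M W : Set ZFSet.{u}} {κ : Ordinal.{u}} {p y : ZFSet.{u}} (h : Dec M W κ p y) :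
    Ctm (Ext M (Fy M y)) ∧ Inac (Ext M (Fy M y)) κ ∧ Lev (Ext M (Fy M y)) κ W ∧
      (∀ x ∈ M, x ∈ Ext M (Fy M y)) ∧ y ∈ Ext M (Fy M y) ∧ Ctm W ∧ M ⊆ W := by
  have hP : RB M ∈ M := RB_mem h.ctm.zf h.mu
  obtain ⟨hW, hMW, _, _⟩ := (hL6 M κ h.ctm h.inac).2 W h.lev
  have hs := de_RB_small hB1 h.ctm h.inac h.mu
  have hF : Fy M y ∈ W := de_Fy_mem hW.zf (hMW hP) h.ymem
  exact ⟨st_KE M _ _ h.ctm hP h.rnd, (hB3 M κ _ _ h.ctm h.inac hs h.rnd).1,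
    hL3 M W κ _ _ h.ctm h.inac h.lev hs h.rnd hF, fun x hx => sub_ext h.ctm hP h.rnd hx,
    de_ymem h.ctm h.mu h.yom h.rnd, hW, hMW⟩

theorem de_LeF_trans {x y z : ZFSet.{u}} (hx : FF x) (hy : FF y) (h1 : LeF x y)
    (h2 : LeF y z) : LeF x z := by
  intro n m m' hm hm'
  have hn : n ∈ ZFSet.omega := (pair_mem_prod.1 (hx.1 hm)).1
  obtain ⟨w, hw, _⟩ := hy.2 n hn
  exact (h1 n m w hm hw).trans (h2 n w m' hw hm')

/-- The union of two countable sets of a model is countable. -/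
theorem de_union_ctb {W : Set ZFSet.{u}} (hW : Ctm W) {a b : ZFSet.{u}} (ha : a ∈ W)
    (hb : b ∈ W) (h1 : CardLe W a ZFSet.omega) (h2 : CardLe W b ZFSet.omega) :
    CardLe W (a ∪ b) ZFSet.omega := by
  have hom : ZFSet.omega.{u} ∈ W := hW.zf.omega
  have hs : ({a, b} : ZFSet.{u}) ∈ W := hW.zf.pair a ha b hb
  have h3 : CardLe W ({a, b} : ZFSet.{u}) ZFSet.omega := by
    refine fin_cardLe hW.zf (fun y hy => hW.zf.trans _ hs y hy) ?_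
    refine (Set.toFinite ({a, b} : Set ZFSet.{u})).subset ?_
    intro x hx
    exact ZFSet.mem_pair.1 hx
  have h4 := st_K4 W ∅ hW.zf hW.wo _ hs _ hom _ hom h3 (fun x hx => by
    rcases ZFSet.mem_pair.1 hx with rfl | rfl
    · exact h1
    · exact h2)
  have e : sUnion ({a, b} : ZFSet.{u}) = a ∪ b := rfl
  rw [e] at h4
  have hab : a ∪ b ∈ W := by
    rw [← e]; exact hW.zf.sUnion _ hs
  exact cardLe_trans hW.zf hab h4
    ((st_VO.2.2.2.2.2.2.2.2 W ∅ hW.zf hW.wo).2)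

/-- The union of two conditions is a condition if the cross coherences hold. -/
theorem de_union_isP {W : Set ZFSet.{u}} (hW : Ctm W) {a b : ZFSet.{u}} (ha : IsP W a)
    (hb : IsP W b)
    (hab : ∀ x s x' s' c, pair x s ∈ a → pair x' s' ∈ b → c ∈ s → LeF c x' → c ∈ s')
    (hba : ∀ x s x' s' c, pair x s ∈ b → pair x' s' ∈ a → c ∈ s → LeF c x' → c ∈ s') :
    IsP W (a ∪ b) := by
  obtain ⟨ha1, ha2, ha3, ha4⟩ := ha
  obtain ⟨hb1, hb2, hb3, hb4⟩ := hb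
  refine ⟨?_, de_union_ctb hW ha1 hb1 ha2 hb2, ?_, ?_⟩
  · have e : sUnion ({a, b} : ZFSet.{u}) = a ∪ b := rfl
    rw [← e]
    exact hW.zf.sUnion _ (hW.zf.pair a ha1 b hb1)
  · intro t ht
    rcases ZFSet.mem_union.1 ht with h | h
    · exact ha3 t h
    · exact hb3 t h
  · intro x s x' s' c h h' hc hl
    rcases ZFSet.mem_union.1 h with h | h <;> rcases ZFSet.mem_union.1 h' with h' | h'
    · exact ha4 x s x' s' c h h' hc hl
    · exact hab x s x' s' c h h' hc hl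
    · exact hba x s x' s' c h h' hc hl
    · exact hb4 x s x' s' c h h' hc hl

/-- The names of the parameters. -/
noncomputable def de_nm {k : ℕ} (P y : ZFSet.{u}) (v : Fin k → ZFSet.{u}) :
    Fin (k + 2) → ZFSet.{u} :=
  Fin.cons (gname P) (Fin.cons (chk y) (fun i => chk (v i)))

theorem de_nm_mem {W A : Set ZFSet.{u}} (hW : IsZF W A) {k : ℕ} {P y : ZFSet.{u}}
    {v : Fin k → ZFSet.{u}} (hP : P ∈ W) (hy : y ∈ W) (hv : ∀ i, v i ∈ W) :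
    ∀ i, de_nm P y v i ∈ W := by
  intro i
  refine Fin.cases ?_ (fun j => ?_) i
  · exact gname_memM hW hP
  · refine Fin.cases ?_ (fun l => ?_) j
    · exact Pool.Agent.Helper27.SC.chk_memM hW hy
    · exact Pool.Agent.Helper27.SC.chk_memM hW (hv l)

theorem de_nm_val {W : Set ZFSet.{u}} (hW : Ctm W) {k : ℕ} {P y : ZFSet.{u}}
    {v : Fin k → ZFSet.{u}} (hP : P ∈ W) (hy : y ∈ W) (hv : ∀ i, v i ∈ W) {G : ZFSet.{u}}
    (hG : IsGeneric W P G) :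
    (fun i => val G (de_nm P y v i)) = Fin.cons G (Fin.cons y v) := by
  funext i
  refine Fin.cases ?_ (fun j => ?_) i
  · exact val_gname hG.top hG.sub
  · refine Fin.cases ?_ (fun l => ?_) j
    · exact val_chk' hW hP hG hy
    · exact val_chk' hW hP hG (hv l)

/-- Decision by a stronger condition. -/
theorem de_decide {W : Set ZFSet.{u}} (hW : Ctm W) {k : ℕ} {P y p : ZFSet.{u}}
    {v : Fin k → ZFSet.{u}} (hP : P ∈ W) (h0 : ∅ ∈ P) (hy : y ∈ W) (hv : ∀ i, v i ∈ W)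
    {G : ZFSet.{u}} (hG : IsGeneric W P G) (hp : p ∈ G) (φ : Fml (k + 2))
    (h : Sat (Ext W G) ∅ φ (Fin.cons G (Fin.cons y v))) :
    ∃ q ∈ G, p ⊆ q ∧ Forces W P φ (de_nm P y v) q := by
  have hn := de_nm_mem hW.zf hP hy hv
  rw [← de_nm_val hW hP hy hv hG] at h
  obtain ⟨q, hq, hf⟩ := st_KT W P G hW hP hG (k + 2) φ (de_nm P y v) hn h
  obtain ⟨r, hr, hqr, hpr⟩ := hG.dir q hq p hp
  refine ⟨r, hr, hpr, ?_⟩
  rw [forces_iff hW hP h0 φ _ hn (hG.sub hr)]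
  intro G' hG' hr'
  exact hf G' hG' (hG'.up r hr' q (hG.sub hq) hqr)

theorem de_forced {W : Set ZFSet.{u}} (hW : Ctm W) {k : ℕ} {P y : ZFSet.{u}}
    {v : Fin k → ZFSet.{u}} (hP : P ∈ W) (h0 : ∅ ∈ P) (hy : y ∈ W) (hv : ∀ i, v i ∈ W)
    {G q : ZFSet.{u}} (hG : IsGeneric W P G) (hq : q ∈ G) (φ : Fml (k + 2))
    (h : Forces W P φ (de_nm P y v) q) : Sat (Ext W G) ∅ φ (Fin.cons G (Fin.cons y v)) := by
  have hn := de_nm_mem hW.zf hP hy hv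
  rw [forces_iff hW hP h0 φ _ hn (hG.sub hq)] at h
  have h1 := h G hG hq
  rwa [de_nm_val hW hP hy hv hG] at h1

theorem de_u_gname {α : Type (u + 1)} [Ctx.{u} α] {f : Set ZFSet.{u} → Set ZFSet.{u} → α → ZFSet.{u}}
    (hf : U KZ.{u} f) : U KZ.{u} (fun N A a => gname (f N A a)) := by
  have h0 : U KZ.{u} (fun _ _ (x : ZFSet.{u}) => gname x) := by
    unfold gname
    refine U.img U.id ?_
    exact U.pair (u_chk U.id.snd) U.id.snd
  exact h0.comp hf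

/-- The relation to which `TW` is applied. -/
theorem de_rel (hP1 : ST_P1.{u}) {d : ZFSet.{u} → ZFSet.{u}}
    (hd : U KZ.{u} (fun _ _ x => d x)) {k : ℕ} (φ : Fml (k + 2)) :
    URel KZ.{u} (fun N _ (a : Fin (k + 3) → ZFSet.{u}) =>
      d (a 0) ∈ PG N ∧ a 1 ⊆ d (a 0) ∧
        Forces N (PG N) φ (de_nm (PG N) (a 2) (fun i => a i.succ.succ.succ)) (d (a 0))) := by
  have h3 : URel KZ.{u} (fun M _ (w : Fin (k + 2 + 2) → ZFSet.{u}) =>
      Forces M (w 1) φ (Fin.tail (Fin.tail w)) (w 0)) := by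
    have := (ud_iff (C := KZ.{u})).1 (show UD KZ.{u} (k := k + 2 + 2) (fun M _ w =>
      Forces M (w 1) φ (Fin.tail (Fin.tail w)) (w 0)) from FB3 (k + 2) φ)
    exact this
  have hPG : U KZ.{u} (fun N _ (_ : Fin (k + 3) → ZFSet.{u}) => PG N) := hP1.1.comp U.unit
  have hd0 : U KZ.{u} (fun _ _ (a : Fin (k + 3) → ZFSet.{u}) => d (a 0)) :=
    hd.comp (U.id.eval 0)
  refine (URel.mem hd0 hPG).and ((URel.subset (U.id.eval 1) hd0).and ?_)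
  have hf : U KZ.{u} (fun N _ (a : Fin (k + 3) → ZFSet.{u}) =>
      (Fin.cons (d (a 0)) (Fin.cons (PG N) (de_nm (PG N) (a 2)
        (fun i => a i.succ.succ.succ))) : Fin (k + 2 + 2) → ZFSet.{u})) := by
    unfold de_nm
    refine U.finCons hd0 (U.finCons hPG (U.finCons (de_u_gname hPG) (U.finCons
      (u_chk (U.id.eval 2)) (U.finMk (fun i => ?_)))))
    exact u_chk (U.id.eval i.succ.succ.succ)
  exact h3.comp hf

theorem de_of_pair_mem {N A : Set ZFSet.{u}} (hN : IsZF N A) {x y : ZFSet.{u}}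
    (h : pair x y ∈ N) : x ∈ N ∧ y ∈ N := by
  have h1 : ({x, y} : ZFSet.{u}) ∈ N := by
    refine hN.trans _ h _ ?_
    unfold pair
    exact ZFSet.mem_pair.2 (Or.inr rfl)
  exact ⟨hN.trans _ h1 x (ZFSet.mem_pair.2 (Or.inl rfl)),
    hN.trans _ h1 y (ZFSet.mem_pair.2 (Or.inr rfl))⟩

theorem de_aux (hTW : ST_TW.{u}) (hMF : ST_MF.{u}) (hL3 : ST_L3.{u}) (hL6 : ST_L6.{u})
    (hCD : ST_CD.{u}) (hP1 : ST_P1.{u}) (hB1 : ST_B1.{u}) (hB3 : ST_B3.{u}) {k : ℕ}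
    (φ : Fml (k + 2)) {M W : Set ZFSet.{u}} {κ : Ordinal.{u}} {p y : ZFSet.{u}}
    (h : Dec M W κ p y) {v : Fin k → ZFSet.{u}} (hv : ∀ i, v i ∈ M) {H H' : ZFSet.{u}}
    (hH : IsGeneric W (PG W) H) (hH' : IsGeneric W (PG W) H') (hp : p ∈ H) (hp' : p ∈ H')
    (h1 : Sat (Ext W H) ∅ φ (Fin.cons H (Fin.cons y v))) :
    Sat (Ext W H') ∅ φ (Fin.cons H' (Fin.cons y v)) := by
  by_contra hn
  have h2 : Sat (Ext W H') ∅ (.neg φ) (Fin.cons H' (Fin.cons y v)) := hn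
  obtain ⟨cMy, iMy, lMy, subM, yMy, hW, hMW⟩ := de_My hB1 hB3 hL3 hL6 h
  obtain ⟨hPW, h0, hPG⟩ := hP1.2.2.2.2.2.2.2.2.2 W ∅ hW.zf
  have hvW : ∀ i, v i ∈ W := fun i => hMW (hv i)
  have hyW : y ∈ W := h.ymem
  obtain ⟨q1, hq1, hpq1, f1⟩ := de_decide hW hPW h0 hyW hvW hH hp φ h1
  obtain ⟨q2, hq2, hpq2, f2⟩ := de_decide hW hPW h0 hyW hvW hH' hp' (.neg φ) h2
  have q1P : IsP W q1 := (hPG q1).1 (hH.sub hq1)
  have q2P : IsP W q2 := (hPG q2).1 (hH'.sub hq2)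
  obtain ⟨d, hd, hdd⟩ := hCD
  obtain ⟨z, hz, hzq⟩ := hdd W hW.zf hW.wo q1 q1P
  obtain ⟨e0, he0, he0q⟩ := hdd W hW.zf hW.wo q2 q2P
  obtain ⟨Φ, hΦ⟩ := ud_iff.2 (de_rel hP1 hd (.neg φ))
  have hRlW : ∀ x, x ∈ Rl W → x ∈ W := fun x hx => (mem_Rl.1 hx).2
  have hpW : p ∈ W := hMW h.mem
  have hv' : ∀ i, (Fin.cons p (Fin.cons y v) : Fin (k + 2) → ZFSet.{u}) i ∈
      Ext M (Fy M y) := by
    intro i
    refine Fin.cases ?_ (fun j => ?_) i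
    · exact subM p h.mem
    · refine Fin.cases ?_ (fun l => ?_) j
      · exact yMy
      · exact subM _ (hv l)
  have hvW' : ∀ x ∈ W, ∀ i, (Fin.cons x (Fin.cons p (Fin.cons y v)) :
      Fin (k + 3) → ZFSet.{u}) i ∈ W := by
    intro x hx i
    refine Fin.cases ?_ (fun j => ?_) i
    · exact hx
    · refine Fin.cases ?_ (fun l => ?_) j
      · exact hpW
      · refine Fin.cases ?_ (fun m => ?_) l
        · exact hyW
        · exact hvW m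
  have sat0 : Sat W ∅ Φ (Fin.cons e0 (Fin.cons p (Fin.cons y v))) := by
    refine (hΦ W ∅ hW.zf _ (hvW' e0 (hRlW e0 he0))).2 ⟨?_, ?_, ?_⟩
    · show d e0 ∈ PG W
      rw [he0q]; exact hH'.sub hq2
    · show p ⊆ d e0
      rw [he0q]; exact hpq2
    · show Forces W (PG W) (.neg φ) (de_nm (PG W) y v) (d e0)
      rw [he0q]; exact f2
  obtain ⟨M1, M2, e, c1, c2, s1, s2, hz1, he2, heW, hsat, hint⟩ :=
    hTW (k + 2) Φ (Ext M (Fy M y)) W κ cMy iMy lMy _ hv' e0 he0 sat0 z hz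
  obtain ⟨g1, g2, g3⟩ := (hΦ W ∅ hW.zf _ (hvW' e (hRlW e heW))).1 hsat
  have g1 : d e ∈ PG W := g1
  have g2 : p ⊆ d e := g2
  have g3 : Forces W (PG W) (.neg φ) (de_nm (PG W) y v) (d e) := g3
  have q1M : q1 ∈ M1 := by
    have := hd.closed c1.zf (a := z) (in_zfset.2 hz1)
    rw [in_zfset, hzq] at this
    exact this
  have q3M : d e ∈ M2 := in_zfset.1 (hd.closed c2.zf (a := e) (in_zfset.2 he2))
  have q3P : IsP W (d e) := (hPG _).1 g1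
  have hP : RB M ∈ M := RB_mem h.ctm.zf h.mu
  -- the key interpolation argument
  have key : ∀ (a b : ZFSet.{u}), IsP W a → IsP W b → p ⊆ a → p ⊆ b →
      (∀ x s x' s' c, pair x s ∈ a → pair x' s' ∈ b → c ∈ s → FF c → FF x' → LeF c x' →
        ∃ w ∈ Ext M (Fy M y), FF w ∧ LeF c w) →
      ∀ x s x' s' c, pair x s ∈ a → pair x' s' ∈ b → c ∈ s → LeF c x' → c ∈ s' := by
    intro a b ha hb hpa hpb hi x s x' s' c hxs hxs' hc hl
    obtain ⟨x1, s1', he, hx1, _, hs1⟩ := ha.2.2.1 _ hxs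
    obtain ⟨hxx, hss⟩ := ZFSet.pair_inj.1 he
    subst hxx; subst hss
    obtain ⟨x2, s2', he, hx2, _, _⟩ := hb.2.2.1 _ hxs'
    obtain ⟨hxx, hss⟩ := ZFSet.pair_inj.1 he
    subst hxx; subst hss
    have hcF := (hs1 c hc).1
    obtain ⟨w, hw, hwF, hcw⟩ := hi _ _ _ _ c hxs hxs' hc hcF hx2 hl
    obtain ⟨w1, hw1, hw1F, hww1⟩ := hMF M (Fy M y) h.ctm h.mu h.rnd w hw hwF
    obtain ⟨t, ht⟩ := h.dom w1 hw1 hw1F
    have hcw1 : LeF c w1 := de_LeF_trans hcF hwF hcw hww1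
    have hct : c ∈ t := ha.2.2.2 _ _ _ _ c hxs (hpa ht) hc hcw1
    exact hb.2.2.2 _ _ _ _ c (hpb ht) hxs' hct hl
  have memc : ∀ (N : Set ZFSet.{u}) (a x s c : ZFSet.{u}), Ctm N → a ∈ N → pair x s ∈ a →
      x ∈ N ∧ (c ∈ s → c ∈ N) := by
    intro N a x s c hN ha hxs
    have h3 := hN.zf.trans a ha _ hxs
    have h4 := de_of_pair_mem hN.zf h3
    exact ⟨h4.1, fun hc => hN.zf.trans s h4.2 c hc⟩
  have hU : IsP W (q1 ∪ d e) := by
    refine de_union_isP hW q1P q3P ?_ ?_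
    · refine key q1 (d e) q1P q3P hpq1 g2 ?_
      intro x s x' s' c hxs hxs' hc hcF hx' hl
      obtain ⟨w, hw, hwF, hcw, _⟩ := (hint c ((memc M1 q1 x s c c1 q1M hxs).2 hc) x'
        (memc M2 (d e) x' s' c c2 q3M hxs').1 hcF hx').1 hl
      exact ⟨w, hw, hwF, hcw⟩
    · refine key (d e) q1 q3P q1P g2 hpq1 ?_
      intro x s x' s' c hxs hxs' hc hcF hx' hl
      obtain ⟨w, hw, hwF, hcw, _⟩ := (hint x' (memc M1 q1 x' s' c c1 q1M hxs').1 c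
        ((memc M2 (d e) x s c c2 q3M hxs).2 hc) hx' hcF).2 hl
      exact ⟨w, hw, hwF, hcw⟩
  obtain ⟨G, hG, hqG⟩ := exists_generic hW hPW h0 ((hPG _).2 hU)
  have k1 : q1 ∈ G := hG.up _ hqG q1 (hH.sub hq1) (fun t ht => ZFSet.mem_union.2 (Or.inl ht))
  have k3 : d e ∈ G := hG.up _ hqG (d e) g1 (fun t ht => ZFSet.mem_union.2 (Or.inr ht))
  have r1 := de_forced hW hPW h0 hyW hvW hG k1 φ f1
  have r3 := de_forced hW hPW h0 hyW hvW hG k3 (.neg φ) g3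
  exact r3 r1

/-- DE: decision. -/
theorem st_DE (hTW : ST_TW.{u}) (hMF : ST_MF.{u}) (hL3 : ST_L3.{u}) (hL6 : ST_L6.{u})
    (hCD : ST_CD.{u}) (hP1 : ST_P1.{u}) (hB1 : ST_B1.{u}) (hB3 : ST_B3.{u}) : ST_DE.{u} := by
  intro k φ M W κ p y h v hv H H' hH hH' hp hp'
  exact ⟨de_aux hTW hMF hL3 hL6 hCD hP1 hB1 hB3 φ h hv hH hH' hp hp',
    de_aux hTW hMF hL3 hL6 hCD hP1 hB1 hB3 φ h hv hH' hH hp' hp⟩

end Pool.Agent.Helper66.GP
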