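import Pool.Agent.Helper66.GP.Kit
import Pool.Agent.Helper76.GP.MB

/-! # The random real is recovered from its filter -/

universe u

namespace Pool.Agent.Helper66.GP

open ZFSet MeasureTheory Pool.Agent.Helper66.SC Pool.Agent.Helper22.SC Pool.Agent.Helper76.GP

/-- The strings of length `n + 1` which do not contain `n`. -/
noncomputable def de_off (n : ℕ) : ZFSet.{u} :=
  Str.sep (fun s => ∃ t, t ⊆ nz (n + 1) ∧ (nz n : ZFSet.{u}) ∉ t ∧ s = pair (nz (n + 1)) t)

theorem de_off_sub (n : ℕ) : (de_off n : ZFSet.{u}) ⊆ Str := fun _ h => (ZFSet.mem_sep.1 h).1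

theorem de_mem_off {n : ℕ} {t : ZFSet.{u}} (ht : t ⊆ nz (n + 1)) (h : (nz n : ZFSet.{u}) ∉ t) :
    pair (nz (n + 1)) t ∈ de_off.{u} n :=
  ZFSet.mem_sep.2 ⟨mem_Str.2 ⟨n + 1, t, ht, rfl⟩, t, ht, h, rfl⟩

theorem de_US_off (n : ℕ) : US (de_off n : ZFSet.{u}) = {x | x n = false} := by
  ext x
  rw [mem_US]
  constructor
  · rintro ⟨m, hm⟩
    obtain ⟨_, t, ht, hn, he⟩ := ZFSet.mem_sep.1 hm
    obtain ⟨h1, h2⟩ := ZFSet.pair_inj.1 he
    have h3 : m = n + 1 := nzi.1 h1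
    subst h3
    rw [← h2, ZFSet.mem_inter, not_and] at hn
    show x n = false
    have h4 : ¬ ((nz n : ZFSet.{u}) ∈ rl x) := fun h => hn h (nzm.2 (Nat.lt_succ_self n))
    rw [mem_rl] at h4
    simpa using h4
  · intro hx
    refine ⟨n + 1, de_mem_off (inter_sub_nz x (n + 1)) ?_⟩
    rw [ZFSet.mem_inter, mem_rl]
    intro h
    have hx' : x n = false := hx
    rw [hx'] at h
    exact absurd h.1 (by simp)

theorem de_coin_off (n : ℕ) : coin {x | x n = false} < 1 := by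
  have h := (measurePreserving_eval_infinitePi
    (fun _ : ℕ => (PMF.uniformOfFintype Bool).toMeasure) n).measure_preimage
      (s := {false}) (measurableSet_singleton false).nullMeasurableSet
  have h1 : coin {x | x n = false} = coin (Function.eval n ⁻¹' ({false} : Set Bool)) := rfl
  rw [h1]
  unfold coin
  rw [h, PMF.toMeasure_apply_singleton _ _ (measurableSet_singleton _),
    PMF.uniformOfFintype_apply]
  simp only [Fintype.card_bool, Nat.cast_ofNat]
  exact ENNReal.inv_lt_one.2 (by norm_num)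

theorem de_US_satu_off (n : ℕ) : US (satu (de_off n : ZFSet.{u})) = {x | x n = false} := by
  rw [US_satu (de_off_sub n), de_US_off]

theorem de_off_mem {M A : Set ZFSet.{u}} (hM : IsZF M A) (n : ℕ) :
    satu (de_off n : ZFSet.{u}) ∈ M := by
  have h : U KZ.{u} (fun _ _ (p : ZFSet.{u} × ZFSet.{u}) => satu (Str.sep (fun s =>
      ∃ t ∈ VO.{u}, t ⊆ p.2 ∧ p.1 ∉ t ∧ s = ZFSet.pair p.2 t))) := by
    refine u_satu ?_
    apply_rules (transparency := .reducible) (maxDepth := 400) using is_poly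
  have h1 := h.closed hM (a := ((nz n : ZFSet.{u}), (nz (n + 1) : ZFSet.{u}))) (by
    have := hM.trans _ hM.omega (nz n) (nat_mem_omega n)
    have := hM.trans _ hM.omega (nz (n + 1)) (nat_mem_omega (n + 1))
    simp [*])
  have h2 : (de_off n : ZFSet.{u}) = Str.sep (fun s =>
      ∃ t ∈ VO.{u}, t ⊆ nz (n + 1) ∧ nz n ∉ t ∧ s = ZFSet.pair (nz (n + 1)) t) := by
    unfold de_off
    ext s
    rw [ZFSet.mem_sep, ZFSet.mem_sep]
    refine and_congr_right (fun _ => ⟨?_, ?_⟩)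
    · rintro ⟨t, ht, h3, h4⟩
      exact ⟨t, sub_VO ht (nz_VO _), ht, h3, h4⟩
    · rintro ⟨t, _, ht, h3, h4⟩
      exact ⟨t, ht, h3, h4⟩
  rw [h2]
  simpa using h1

theorem de_off_RB {M A : Set ZFSet.{u}} (hM : IsZF M A) (n : ℕ) :
    satu (de_off n : ZFSet.{u}) ∈ RB M := by
  rw [mem_RB]
  refine ⟨de_off_mem hM n, Sd_satu (de_off_sub n), ?_⟩
  rw [de_US_satu_off]
  exact de_coin_off n

/-- The real of a filter on random forcing. -/
noncomputable def de_real (F : ZFSet.{u}) : ZFSet.{u} :=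
  ZFSet.omega.sep (fun k => ∃ b ∈ F, ∀ t ∈ VO.{u}, t ⊆ k ∪ {k} → k ∉ t → ZFSet.pair (k ∪ {k}) t ∈ b)

theorem de_nz_succ (n : ℕ) : (nz n ∪ {nz n} : ZFSet.{u}) = nz (n + 1) := by
  ext k
  rw [ZFSet.mem_union, ZFSet.mem_singleton, mem_nz, mem_nz]
  constructor
  · rintro (⟨i, hi, rfl⟩ | rfl)
    · exact ⟨i, by omega, rfl⟩
    · exact ⟨n, by omega, rfl⟩
  · rintro ⟨i, hi, rfl⟩
    rcases Nat.lt_succ_iff_lt_or_eq.1 hi with h | h
    · exact Or.inl ⟨i, h, rfl⟩
    · exact Or.inr (by rw [h])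

theorem de_real_eq {M A : Set ZFSet.{u}} (hM : IsZF M A) {y : ZFSet.{u}}
    (hy : y ⊆ ZFSet.omega) : de_real (Fy M y) = y := by
  obtain ⟨x, rfl⟩ := exists_rl hy
  ext k
  unfold de_real
  rw [ZFSet.mem_sep]
  constructor
  · rintro ⟨hk, b, hb, h⟩
    obtain ⟨n, rfl⟩ := mem_omega_iff'.1 hk
    by_contra hn
    rw [de_nz_succ] at h
    unfold Fy at hb
    rw [ZFSet.mem_sep] at hb
    refine hb.2 ⟨n + 1, h _ (sub_VO (inter_sub_nz x (n + 1)) (nz_VO _))
      (inter_sub_nz x (n + 1)) ?_⟩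
    rw [ZFSet.mem_inter]
    exact fun h => hn h.1
  · intro hk
    obtain ⟨n, rfl⟩ := mem_omega_iff'.1 (hy hk)
    refine ⟨hy hk, satu (de_off n), ?_, ?_⟩
    · unfold Fy
      rw [ZFSet.mem_sep]
      refine ⟨de_off_RB hM n, fun h => ?_⟩
      have h1 : x ∈ US (satu (de_off n : ZFSet.{u})) := h
      rw [de_US_satu_off] at h1
      have h2 : x n = false := h1
      rw [mem_rl, h2] at hk
      exact absurd hk (by simp)
    · intro t _ ht hn
      rw [de_nz_succ] at ht ⊢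
      exact sub_satu (de_off_sub n) (de_mem_off ht hn)

theorem de_u_real : U KZ.{u} (fun _ _ (F : ZFSet.{u}) => de_real F) := by
  unfold de_real
  apply_rules (transparency := .reducible) (maxDepth := 400) using is_poly

theorem de_real_mem {K B : Set ZFSet.{u}} (hK : IsZF K B) {F : ZFSet.{u}} (hF : F ∈ K) :
    de_real F ∈ K := in_zfset.1 (de_u_real.closed hK (a := F) (in_zfset.2 hF))

/-- The random real lies in the extension by its filter. -/
theorem de_ymem {M : Set ZFSet.{u}} (hM : Ctm M) (hm : MuR ∈ M) {y : ZFSet.{u}}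
    (hy : y ⊆ ZFSet.omega) (hG : IsGeneric M (RB M) (Fy M y)) : y ∈ Ext M (Fy M y) := by
  have hP : RB M ∈ M := RB_mem hM.zf hm
  have h := de_real_mem (st_KE M (RB M) (Fy M y) hM hP hG).zf (gen_mem_ext hM hP hG)
  rwa [de_real_eq hM.zf hy] at h

/-- `InU` in bounded form. -/
theorem de_u_InU {α : Type (u + 1)} [Ctx.{u} α]
    {f g : Set ZFSet.{u} → Set ZFSet.{u} → α → ZFSet.{u}} (hf : U KZ.{u} f) (hg : U KZ.{u} g) :
    URel KZ.{u} (fun N A a => InU (f N A a) (g N A a)) := by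
  have h : URel KZ.{u} (fun _ _ (p : ZFSet.{u} × ZFSet.{u}) => InU p.1 p.2) := by
    have h1 : URel KZ.{u} (fun _ _ (p : ZFSet.{u} × ZFSet.{u}) => ∃ n ∈ ZFSet.omega.{u},
        ZFSet.pair n (p.2 ∩ n) ∈ p.1) := by
      apply_rules (transparency := .reducible) (maxDepth := 400) using is_poly
    refine h1.congr ?_
    intro N A _ p _
    constructor
    · rintro ⟨n, hn, h⟩
      obtain ⟨n, rfl⟩ := mem_omega_iff'.1 hn
      exact ⟨n, h⟩
    · rintro ⟨n, h⟩
      exact ⟨nz n, nat_mem_omega n, h⟩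
  exact h.comp (hf.prodMk hg)

end Pool.Agent.Helper66.GP
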